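import Mathlib

set_option autoImplicit false

namespace Pool.Agent.Results.MP_aba9fe_co.Yes

open Finset SimpleGraph

/-- A finite nonempty loopless multigraph with vertices named by naturals; `m u v` is the number
of parallel edges joining `u` and `v`. -/
structure MG where
  V : Finset ℕ
  m : ℕ → ℕ → ℕ
  ne : V.Nonempty
  symm : ∀ u v, m u v = m v u
  loop : ∀ u, m u u = 0
  supp : ∀ u v, m u v ≠ 0 → u ∈ V

/-- The underlying simple graph. -/
def MG.s (G : MG) : SimpleGraph ℕ where
  Adj u v := G.m u v ≠ 0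
  symm := ⟨fun u v h => by rwa [G.symm]⟩
  loopless := ⟨fun u h => h (G.loop u)⟩

/-- Unique shortest path: no edge on it has a parallel edge, and every path with the same ends
and at most as many vertices has the same vertex sequence. -/
def USP (G : MG) {u v : ℕ} (p : G.s.Walk u v) : Prop :=
  u ∈ G.V ∧ p.IsPath ∧ (∀ i < p.length, G.m (p.getVert i) (p.getVert (i + 1)) = 1) ∧
    ∀ q : G.s.Walk u v, q.IsPath → q.length ≤ p.length → q = p

/-- Parade number. -/
noncomputable def usp (G : MG) : ℕ := sSup {k | ∃ u v, ∃ p : G.s.Walk u v, USP G p ∧ k = p.length + 1}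

/-- Spectator number. -/
noncomputable def sp (G : MG) : ℕ := G.V.card - usp G

/-- `G` arises from `H` by deleting an isolated vertex, deleting an edge, or contracting an edge
`uv` with no parallel edge (the merged vertex keeps the name `u`). -/
def Step (H G : MG) : Prop :=
  (∃ v ∈ H.V, (∀ x, H.m v x = 0) ∧ G.V = H.V.erase v ∧ G.m = H.m) ∨
  (∃ u v, G.V = H.V ∧ H.m u v = G.m u v + 1 ∧ ∀ x y, s(x, y) ≠ s(u, v) → G.m x y = H.m x y) ∨
  (∃ u v, H.m u v = 1 ∧ G.V = H.V.erase v ∧ ∀ x ∈ G.V, ∀ y ∈ G.V, x ≠ y →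
    G.m x y = H.m x y + (if x = u then H.m v y else 0) + (if y = u then H.m x v else 0))

/-- Spectator floor. -/
noncomputable def sf (G : MG) : ℕ := sInf {s | ∃ H, Relation.ReflTransGen Step H G ∧ s = sp H}

/-- Certificate: path vertices get even labels, spectators odd labels. -/
def Cert (G : MG) (s : ℕ) : Prop := ∃ φ : ℕ → ℤ, (∀ x y, G.m x y ≠ 0 → φ y ≤ φ x + 2) ∧
  (∀ x ∈ G.V, ∀ y ∈ G.V, φ x % 2 = 0 → φ x = φ y → x = y) ∧
  (∀ x y, φ x % 2 = 0 → φ y % 2 = 0 → G.m x y ≤ 1) ∧ #{x ∈ G.V | φ x % 2 = 1} ≤ s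

theorem step_cert {H G : MG} {s : ℕ} (h : Step H G) (hc : Cert H s) : Cert G s := by
  obtain ⟨φ, h1, h2, h3, h4⟩ := hc
  rcases h with ⟨v, -, -, e, e'⟩ | ⟨u, v, e, a, b⟩ | ⟨u, v, a, e, b⟩
  · refine ⟨φ, e' ▸ h1, fun x hx y hy => h2 x ?_ y ?_, e' ▸ h3, le_trans (card_le_card ?_) h4⟩
    · exact mem_of_mem_erase (e ▸ hx)
    · exact mem_of_mem_erase (e ▸ hy)
    · exact filter_subset_filter _ (e ▸ erase_subset _ _)
  · have le : ∀ x y, G.m x y ≤ H.m x y := fun x y => by
      by_cases c : s(x, y) = s(u, v)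
      · rcases Sym2.eq_iff.1 c with ⟨rfl, rfl⟩ | ⟨rfl, rfl⟩
        · omega
        · rw [G.symm, H.symm]; omega
      · rw [b x y c]
    exact ⟨φ, fun x y h => h1 x y (by have := le x y; omega), e ▸ h2,
      fun x y p q => (le x y).trans (h3 x y p q), e ▸ h4⟩
  · have l : ∀ x y, H.m x y = 0 ∨ (φ y ≤ φ x + 2 ∧ φ x ≤ φ y + 2) := fun x y =>
      or_iff_not_imp_left.2 fun h => ⟨h1 x y h, h1 y x (by rwa [H.symm])⟩
    have hu : u ∈ H.V := H.supp u v (by omega)
    have hv : v ∈ H.V := H.supp v u (by rw [H.symm]; omega)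
    have uv : u ≠ v := fun h => by rw [h, H.loop] at a; omega
    have luv := l u v
    have I : ∀ x ∈ H.V, ∀ y ∈ H.V, φ x % 2 = 1 ∨ φ x ≠ φ y ∨ x = y := fun x hx y hy => by
      have := h2 x hx y hy; omega
    have S : ∀ x y, φ x % 2 = 1 ∨ φ y % 2 = 1 ∨ H.m x y ≤ 1 := fun x y => by
      have := h3 x y; omega
    have iuv := I u hu v hv
    have mem : ∀ x y, G.m x y ≠ 0 → (x ∈ G.V ∧ y ∈ G.V ∧ x ≠ y) ∧ (x ≠ v ∧ x ∈ H.V) ∧ y ≠ v ∧ y ∈ H.V :=
      fun x y h => by
        have p := G.supp x y h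
        have q := G.supp y x (by rwa [G.symm])
        exact ⟨⟨p, q, fun c => h (c ▸ G.loop x)⟩, mem_erase.1 (e ▸ p), mem_erase.1 (e ▸ q)⟩
    by_cases c : φ u % 2 = 0 ∧ φ v % 2 = 0
    · refine ⟨fun x => if φ x ≤ min (φ u) (φ v) then φ x else φ x - 2, fun x y h => ?_,
        fun x hx y hy p q => ?_, fun x y p q => ?_, le_trans (card_le_card fun x hx => ?_) h4⟩
      · obtain ⟨⟨p, q, r⟩, -⟩ := mem x y h
        rw [b x p y q r] at h
        have := l x y; have := l v y; have := l x v
        beta_reduce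
        by_cases c1 : x = u <;> by_cases c2 : y = u <;> simp only [c1, c2, if_true, if_false] at * <;>
          split_ifs <;> omega
      · obtain ⟨x1, x2⟩ := mem_erase.1 (e ▸ hx)
        obtain ⟨y1, y2⟩ := mem_erase.1 (e ▸ hy)
        have := I x x2 y y2; have := I x x2 u hu; have := I x x2 v hv
        have := I y y2 u hu; have := I y y2 v hv
        beta_reduce at p q
        split_ifs at p q <;> omega
      · by_contra h
        obtain ⟨⟨p', q', r⟩, ⟨x1, x2⟩, y1, y2⟩ := mem x y (by omega)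
        rw [b x p' y q' r] at h
        have px : φ x % 2 = 0 := by beta_reduce at p; split_ifs at p <;> omega
        have py : φ y % 2 = 0 := by beta_reduce at q; split_ifs at q <;> omega
        clear p q
        have := h3 x y px py
        split_ifs at h with c1 c2 c2
        · omega
        · subst c1
          have := l x y; have := l v y; have := h3 v y c.2 py
          have := I y y2 x hu; have := I y y2 v hv
          omega
        · subst c2
          have := l x y; have := l x v; have := h3 x v px c.2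
          have := I x x2 y hu; have := I x x2 v hv
          omega
        · omega
      · obtain ⟨p, q⟩ := mem_filter.1 hx
        refine mem_filter.2 ⟨mem_of_mem_erase (e ▸ p), ?_⟩
        beta_reduce at q
        split_ifs at q <;> omega
    · obtain ⟨t, t1, t2⟩ : ∃ t, t % 2 = 1 ∧ t ≤ φ u ∧ φ u ≤ t + 2 ∧ t ≤ φ v ∧ φ v ≤ t + 2 :=
        ⟨if min (φ u) (φ v) % 2 = 1 then min (φ u) (φ v) else min (φ u) (φ v) - 1, by
          split_ifs <;> omega⟩
      refine ⟨fun x => if φ x ≤ t then φ x else if φ x = t + 1 then t else φ x - 2, fun x y h => ?_,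
        fun x hx y hy p q => ?_, fun x y p q => ?_, ?_⟩
      · obtain ⟨⟨p, q, r⟩, -⟩ := mem x y h
        rw [b x p y q r] at h
        have := l x y; have := l v y; have := l x v
        beta_reduce
        by_cases c1 : x = u <;> by_cases c2 : y = u <;> simp only [c1, c2, if_true, if_false] at * <;>
          split_ifs <;> omega
      · have := I x (mem_of_mem_erase (e ▸ hx)) y (mem_of_mem_erase (e ▸ hy))
        beta_reduce at p q
        split_ifs at p q <;> omega
      · by_contra h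
        obtain ⟨⟨p', q', r⟩, -⟩ := mem x y (by omega)
        rw [b x p' y q' r] at h
        have := S x y
        beta_reduce at p q
        by_cases c1 : x = u <;> by_cases c2 : y = u <;> simp only [c1, c2, if_true, if_false] at * <;>
          split_ifs at p q <;> omega
      · have c1 : #{x ∈ H.V | φ x = t + 1} ≤ 1 := card_le_one.2 fun x hx y hy => by
          obtain ⟨x1, x2⟩ := mem_filter.1 hx
          obtain ⟨y1, y2⟩ := mem_filter.1 hy
          have := I x x1 y y1; omega
        have c2 := card_union_le {x ∈ H.V | φ x % 2 = 1} {x ∈ H.V | φ x = t + 1}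
        have c3 := card_erase_add_one (s := {x ∈ H.V | φ x % 2 = 1} ∪ {x ∈ H.V | φ x = t + 1}) (a := v)
          (by simp only [mem_union, mem_filter, hv, true_and]; omega)
        refine le_trans (card_le_card (t := ({x ∈ H.V | φ x % 2 = 1} ∪ {x ∈ H.V | φ x = t + 1}).erase v)
          fun x hx => ?_) (by omega)
        obtain ⟨p, q⟩ := mem_filter.1 hx
        obtain ⟨x1, x2⟩ := mem_erase.1 (e ▸ p)
        simp only [mem_erase, mem_union, mem_filter, x2, true_and]
        beta_reduce at q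
        split_ifs at q <;> omega

theorem walk_mem (G : MG) {u v : ℕ} (p : G.s.Walk u v) (hu : u ∈ G.V) : ∀ x ∈ p.support, x ∈ G.V := by
  induction p with
  | nil => simpa using hu
  | cons h p ih =>
    intro x hx
    rcases List.mem_cons.1 hx with rfl | hx
    · exact hu
    · exact ih (G.supp _ _ h.symm) x hx

theorem usp_spec (G : MG) : (∃ u v, ∃ p : G.s.Walk u v, USP G p ∧ usp G = p.length + 1) ∧
    ∀ u v (p : G.s.Walk u v), USP G p → p.length + 1 ≤ usp G := by
  have bd : BddAbove {k | ∃ u v, ∃ p : G.s.Walk u v, USP G p ∧ k = p.length + 1} := by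
    refine ⟨G.V.card, ?_⟩
    rintro k ⟨u, v, p, hp, rfl⟩
    rw [← p.length_support, ← List.toFinset_card_of_nodup hp.2.1.support_nodup]
    exact card_le_card fun x hx => walk_mem G p hp.1 x (List.mem_toFinset.1 hx)
  obtain ⟨u, hu⟩ := G.ne
  refine ⟨Nat.sSup_mem (s := {k | ∃ u v, ∃ p : G.s.Walk u v, USP G p ∧ k = p.length + 1})
    ⟨1, u, u, Walk.nil, ⟨hu, by simp, by simp, fun q _ h => ?_⟩, rfl⟩ bd,
    fun u v p hp => le_csSup bd ⟨u, v, p, hp, rfl⟩⟩
  exact Walk.eq_nil_iff_nil.2 (Walk.nil_iff_length_eq.2 (by simpa using h))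

theorem cert_sp (G : MG) : Cert G (sp G) := by
  obtain ⟨u, v, p, ⟨hu, hp, h1, hq⟩, e⟩ := (usp_spec G).1
  have W : ∀ q : G.s.Walk u v, q.length ≤ p.length → q = p := fun q h => by
    have a := hq q.bypass q.bypass_isPath (q.length_bypass_le_length.trans h)
    rw [← a, q.bypass_eq_self_of_length_le_length_bypass (by rw [a]; exact h)]
  have D : ∀ i ≤ p.length, G.s.dist u (p.getVert i) = i := fun i hi => by
    obtain ⟨q, hq⟩ := (p.take i).reachable.exists_walk_length_eq_dist
    have a := dist_le (p.take i)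
    rw [Walk.take_length] at a
    have b := congrArg Walk.length (W (q.append (p.drop i)) (by simp; omega))
    simp at b; omega
  have O : ∀ x ∉ p.support, ∀ i ≤ p.length, G.s.Adj x (p.getVert i) → i ≤ G.s.dist u x := by
    intro x hx i hi h
    by_contra c
    obtain ⟨q, hq⟩ := ((p.take i).reachable.trans h.symm.reachable).exists_walk_length_eq_dist
    refine hx (W (q.append (Walk.cons h (p.drop i))) (by simp; omega) ▸ ?_)
    simp
  refine ⟨fun x => if x ∈ p.support then 2 * G.s.dist u x else 2 * G.s.dist u x - 1, fun x y h => ?_,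
    fun x _ y _ a b => ?_, fun x y a b => ?_, ?_⟩
  · have h' : G.s.Adj x y := h
    have := h'.diff_dist_adj (u := u)
    beta_reduce
    split_ifs with a b
    · omega
    · obtain ⟨i, rfl, hi⟩ := Walk.mem_support_iff_exists_getVert.1 a
      have := O x b i hi h'
      have := D i hi
      omega
    · omega
    · omega
  · beta_reduce at a b
    split_ifs at a b with c d
    · obtain ⟨i, rfl, hi⟩ := Walk.mem_support_iff_exists_getVert.1 c
      obtain ⟨j, rfl, hj⟩ := Walk.mem_support_iff_exists_getVert.1 d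
      rw [D i hi, D j hj] at b
      rw [show i = j by omega]
    all_goals omega
  · beta_reduce at a b
    split_ifs at a b with c d
    · obtain ⟨i, rfl, hi⟩ := Walk.mem_support_iff_exists_getVert.1 c
      obtain ⟨j, rfl, hj⟩ := Walk.mem_support_iff_exists_getVert.1 d
      by_contra h
      have h' : G.s.Adj (p.getVert i) (p.getVert j) := fun z => by omega
      have := h'.diff_dist_adj (u := u)
      rw [D i hi, D j hj] at this
      have ne : i ≠ j := fun z => h'.ne (z ▸ rfl)
      rcases (by omega : j = i + 1 ∨ i = j + 1) with rfl | rfl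
      · have := h1 i hj; omega
      · have := h1 j hi; rw [G.symm] at h; omega
    all_goals omega
  · rw [sp, e, ← p.length_support, ← List.toFinset_card_of_nodup hp.support_nodup, ← card_sdiff_of_subset
      fun x hx => walk_mem G p hu x (List.mem_toFinset.1 hx)]
    refine card_le_card fun x hx => ?_
    obtain ⟨a, b⟩ := mem_filter.1 hx
    refine mem_sdiff.2 ⟨a, fun c => ?_⟩
    beta_reduce at b
    rw [if_pos (List.mem_toFinset.1 c)] at b
    omega

theorem build (G : MG) (j : ℕ) (hj : 2 ≤ j) (Φ P : ℕ → ℕ) (h1 : ∀ x y, G.m x y ≠ 0 → Φ y ≤ Φ x + 2)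
    (h2 : ∀ x, Φ x + 2 ≤ 2 * j) (h3 : ∀ i < j, P i ∈ G.V ∧ Φ (P i) = 2 * i)
    (h4 : ∀ x ∈ G.V, ∀ i < j, Φ x = 2 * i → x = P i) (h5 : ∀ i, i + 1 < j → G.m (P i) (P (i + 1)) ≤ 1) :
    ∃ F : MG, F.V = G.V ∧ (∀ x y, G.m x y ≤ F.m x y ∧ F.m x y ≤ max 1 (G.m x y)) ∧ usp F = j := by
  let F : MG := ⟨G.V, fun x y => if x ≠ y ∧ x ∈ G.V ∧ y ∈ G.V ∧ Φ y ≤ Φ x + 2 ∧ Φ x ≤ Φ y + 2 then
    max 1 (G.m x y) else 0, G.ne, fun x y => by rw [G.symm]; congr 1; exact propext (by tauto),
    by simp, fun x y h => by by_contra c; simp [c] at h⟩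
  have A : ∀ x y, F.s.Adj x y ↔ x ≠ y ∧ x ∈ G.V ∧ y ∈ G.V ∧ Φ y ≤ Φ x + 2 ∧ Φ x ≤ Φ y + 2 := by
    intro x y; simp [MG.s, F]
  have L : ∀ a b (q : F.s.Walk a b), Φ b ≤ Φ a + 2 * q.length := fun a b q => by
    induction q with
    | nil => simp
    | cons h q ih => have := (A _ _).1 h; rw [Walk.length_cons]; omega
  have R : ∀ q : F.s.Walk (P 0) (P (j - 1)), q.length ≤ j - 1 →
      q.length = j - 1 ∧ ∀ i ≤ q.length, q.getVert i = P i := fun q hq => by
    have a := (h3 0 (by omega)).2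
    have b := (h3 (j - 1) (by omega)).2
    have := L _ _ q
    refine ⟨by omega, fun i hi => h4 _ (walk_mem F q (h3 0 (by omega)).1 _ (q.getVert_mem_support i)) i
      (by omega) ?_⟩
    have c := L _ _ (q.take i)
    have d := L _ _ (q.drop i)
    simp at c d; omega
  have B : ∀ l x y, x ∈ G.V → y ∈ G.V → Φ x ≤ Φ y → Φ y ≤ 2 * (Φ x / 2) + 2 * (l + 1) →
      ∃ q : F.s.Walk x y, q.length ≤ l + 1 := by
    have z : ∀ x y, x ∈ G.V → y ∈ G.V → Φ x ≤ Φ y → Φ y ≤ Φ x + 2 → ∃ q : F.s.Walk x y, q.length ≤ 1 := by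
      intro x y hx hy a b
      by_cases e : x = y
      · subst e; exact ⟨Walk.nil, by simp⟩
      · exact ⟨((A x y).2 ⟨e, hx, hy, b, by omega⟩).toWalk, by simp⟩
    intro l
    induction l with
    | zero => exact fun x y hx hy a b => z x y hx hy a (by omega)
    | succ l ih =>
      intro x y hx hy a b
      by_cases c : Φ y ≤ Φ x + 2
      · obtain ⟨q, hq⟩ := z x y hx hy a c
        exact ⟨q, by omega⟩
      · have := h2 y
        obtain ⟨d, e⟩ := h3 (Φ x / 2 + 1) (by omega)
        obtain ⟨q, hq⟩ := z x _ hx d (by omega) (by omega)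
        obtain ⟨q', hq'⟩ := ih _ y d hy (by omega) (by omega)
        exact ⟨q.append q', by simp; omega⟩
  have C : ∀ x y, x ∈ G.V → y ∈ G.V → ∃ q : F.s.Walk x y, q.length ≤ j - 1 := fun x y hx hy => by
    have := h2 x; have := h2 y
    rcases le_total (Φ x) (Φ y) with a | a
    · obtain ⟨q, hq⟩ := B (j - 2) x y hx hy a (by omega)
      exact ⟨q, by omega⟩
    · obtain ⟨q, hq⟩ := B (j - 2) y x hy hx a (by omega)
      exact ⟨q.reverse, by simp; omega⟩
  refine ⟨F, rfl, fun x y => ?_, le_antisymm ?_ ?_⟩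
  · by_cases c : G.m x y = 0
    · simp only [F]; split_ifs <;> omega
    · have : G.m y x ≠ 0 := by rwa [G.symm]
      simp only [F]
      rw [if_pos ⟨fun e => c (e ▸ G.loop x), G.supp _ _ c, G.supp _ _ this, h1 _ _ c, h1 _ _ this⟩]
      omega
  · obtain ⟨u, v, p, ⟨hu, -, -, hq⟩, e⟩ := (usp_spec F).1
    obtain ⟨q, hq'⟩ := C u v hu (walk_mem F p hu v p.end_mem_support)
    have := q.length_bypass_le_length
    by_contra c
    have := congrArg Walk.length (hq q.bypass q.bypass_isPath (by omega))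
    omega
  · obtain ⟨w, hw⟩ := C _ _ (h3 0 (by omega)).1 (h3 (j - 1) (by omega)).1
    have U : ∀ q : F.s.Walk (P 0) (P (j - 1)), q.length ≤ j - 1 → q = w := fun q hq =>
      Walk.ext_getVert_le_length ((R q hq).1.trans (R w hw).1.symm) fun k hk => by
        rw [(R q hq).2 k hk, (R w hw).2 k (by have := (R q hq).1; have := (R w hw).1; omega)]
    have := (usp_spec F).2 _ _ w ⟨(h3 0 (by omega)).1, U _ (w.length_bypass_le_length.trans hw) ▸
      w.bypass_isPath, fun i hi => ?_, fun q _ h => U q (h.trans hw)⟩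
    · have := (R w hw).1; omega
    · have a := (A _ _).1 (w.adj_getVert_succ hi)
      simp only [F]
      rw [if_pos a, (R w hw).2 i hi.le, (R w hw).2 (i + 1) hi]
      have := h5 i (by omega); omega

theorem result (G : MG) (i : ℕ) (h1 : sf G ≤ i) (h2 : i ≤ sp G) :
    ∃ F : MG, F.V = G.V ∧ (∀ x y, G.m x y ≤ F.m x y ∧ F.m x y ≤ max 1 (G.m x y)) ∧ sp F = i := by
  rcases h2.eq_or_lt with rfl | h2
  · exact ⟨G, rfl, fun x y => by omega, rfl⟩
  obtain ⟨H, hH, e⟩ : sf G ∈ {s | ∃ H, Relation.ReflTransGen Step H G ∧ s = sp H} :=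
    Nat.sInf_mem ⟨_, G, .refl, rfl⟩
  have c : ∀ K, Relation.ReflTransGen Step H K → Cert K (sp H) := fun K hK => by
    induction hK with
    | refl => exact cert_sp H
    | tail _ h ih => exact step_cert h ih
  obtain ⟨φ, c1, c2, c3, c4⟩ := c G hH
  obtain ⟨_, _, w, -, u1⟩ := (usp_spec G).1
  obtain ⟨E, hE⟩ : ∃ E, E = {x ∈ G.V | φ x % 2 = 0} := ⟨_, rfl⟩
  have mE : ∀ x, x ∈ E ↔ x ∈ G.V ∧ φ x % 2 = 0 := fun x => by rw [hE, mem_filter]
  have cE : G.V.card ≤ E.card + #{x ∈ G.V | φ x % 2 = 1} :=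
    le_trans (card_le_card fun x hx => by simp only [mem_union, mE, mem_filter, hx, true_and]; omega)
      (card_union_le _ _)
  obtain ⟨r, hr⟩ : ∃ r : ℕ → ℕ, ∀ x, r x = #{z ∈ E | φ z < φ x} := ⟨_, fun _ => rfl⟩
  have r2 : ∀ x ∈ E, ∀ y, φ x < φ y → r x < r y := fun x hx y h => by
    rw [hr, hr]
    exact card_lt_card ⟨fun z hz => mem_filter.2 ⟨(mem_filter.1 hz).1, (mem_filter.1 hz).2.trans h⟩,
      fun z => by simpa using z (mem_filter.2 ⟨hx, h⟩)⟩
  have inj : ∀ x ∈ E, ∀ y ∈ E, r x = r y → x = y := fun x hx y hy h => by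
    have := r2 x hx y; have := r2 y hy x
    exact c2 x ((mE x).1 hx).1 y ((mE y).1 hy).1 ((mE x).1 hx).2 (by omega)
  have r3 : ∀ x y, φ y ≤ φ x + 2 → r y ≤ r x + 1 := fun x y h => by
    have a : #{z ∈ E | φ x ≤ φ z ∧ φ z < φ x + 2} ≤ 1 := card_le_one.2 fun a ha b hb => by
      simp only [mem_filter, mE] at ha hb
      exact c2 a ha.1.1 b hb.1.1 ha.1.2 (by omega)
    rw [hr, hr]
    refine le_trans (card_le_card fun z hz => ?_) ((card_union_le _ _).trans (Nat.add_le_add_left a _))
    simp only [mem_filter, mem_union] at hz ⊢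
    simp only [hz.1, true_and]; omega
  have r4 : ∀ x y, φ x % 2 = 1 → φ y ≤ φ x + 1 → r y ≤ r x := fun x y a h => by
    rw [hr, hr]
    refine card_le_card fun z hz => ?_
    simp only [mem_filter, mE] at hz ⊢
    exact ⟨hz.1, by omega⟩
  have su := surjOn_of_injOn_of_card_le (s := E) (t := range E.card) r (fun x hx => by
    rw [mem_coe, mem_range, hr]
    exact card_lt_card ⟨filter_subset _ _, fun z => by simpa using z hx⟩) inj (by simp)
  have : ∀ k, ∃ x, k < E.card → x ∈ E ∧ r x = k := fun k => by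
    by_cases h : k < E.card
    · obtain ⟨x, a, b⟩ := su (mem_coe.2 (mem_range.2 h))
      exact ⟨x, fun _ => ⟨a, b⟩⟩
    · exact ⟨0, fun z => absurd z h⟩
  choose P hP using this
  unfold sp at h2
  obtain ⟨j, hj⟩ : ∃ j, G.V.card = i + j := ⟨G.V.card - i, by omega⟩
  obtain ⟨F, f1, f2, f3⟩ := build G j (by omega)
    (fun x => if x ∈ E ∧ r x < j then 2 * r x else max 1 (min (2 * r x - 1) (2 * j - 3))) P
    (fun x y h => by
      have a := c1 x y h
      have b := r3 x y a
      have d : x ∈ E ∨ y ∉ E ∨ r y ≤ r x := by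
        by_contra z
        push Not at z
        have := ((mE y).1 z.2.1).2
        have : φ x % 2 ≠ 0 := fun t => z.1 ((mE x).2 ⟨G.supp x y h, t⟩)
        have := r4 x y (by omega) (by omega)
        omega
      beta_reduce
      by_cases p : x ∈ E <;> by_cases q : y ∈ E <;>
        simp only [p, q, true_and, false_and, if_false, false_or, not_true] at d ⊢ <;>
        (try split_ifs) <;> omega)
    (fun x => by beta_reduce; split_ifs <;> omega)
    (fun k hk => by
      obtain ⟨a, b⟩ := hP k (by omega)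
      exact ⟨((mE _).1 a).1, by simp [a, b, hk]⟩)
    (fun x _ k hk h => by
      obtain ⟨a, b⟩ := hP k (by omega)
      beta_reduce at h
      split_ifs at h with c
      · exact inj x c.1 _ a (by omega)
      · omega)
    (fun k hk => c3 _ _ ((mE _).1 (hP k (by omega)).1).2 ((mE _).1 (hP (k + 1) (by omega)).1).2)
  exact ⟨F, f1, f2, by rw [sp, f1, f3]; omega⟩

end Pool.Agent.Results.MP_aba9fe_co.Yes
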